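import Pool.Agent.H6.BC.Ind

set_option autoImplicit false

namespace Pool.Agent.H6.BC

/-- `A(n,d)`: the largest size of a binary code of length `n` whose distinct words have Hamming distance at
least `d`, written exactly as in the frozen statement of the problem. -/
noncomputable def maxCode (n d : ℕ) : ℕ :=
  sSup {k : ℕ | ∃ C : Finset (Fin n → Bool), C.card = k ∧
    ∀ x ∈ C, ∀ y ∈ C, x ≠ y → d ≤ hammingDist x y}

/-- `M(n,d,k)`: the largest size of a set of `k`-tuples of binary words of length `n` such that any two
distinct tuples have a coordinate in which their words have Hamming distance at least `d`. This is the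
independence number of the `k`-th strong power of the graph on `{0,1}^n` in which distinct words at Hamming
distance less than `d` are adjacent. -/
noncomputable def maxTuples (n d k : ℕ) : ℕ :=
  sSup {s : ℕ | ∃ C : Finset (Fin k → Fin n → Bool), C.card = s ∧
    ∀ x ∈ C, ∀ y ∈ C, x ≠ y → ∃ i, d ≤ hammingDist (x i) (y i)}

/-- `log₂` of the Shannon capacity `sup_{k ≥ 1} M(n,d,k)^{1/k}` of that graph. -/
noncomputable def logCap (n d : ℕ) : ℝ :=
  ⨆ k : ℕ, Real.logb 2 (maxTuples n d (k + 1)) / ((k : ℝ) + 1)

theorem maxCode_eq (n d : ℕ) :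
    maxCode n d = maxInd (fun x y : Fin n → Bool => d ≤ hammingDist x y) := rfl

theorem maxTuples_eq (n d k : ℕ) :
    maxTuples n d k = maxInd (fun x y : Fin k → Fin n → Bool => ∃ i, d ≤ hammingDist (x i) (y i)) := rfl

theorem one_le_maxTuples (n d k : ℕ) : 1 ≤ maxTuples n d k := one_le_maxInd _
theorem one_le_maxCode (n d : ℕ) : 1 ≤ maxCode n d := one_le_maxInd _

theorem maxTuples_le (n d k : ℕ) : maxTuples n d k ≤ 2 ^ (n * k) := by
  have := maxInd_le_card (fun x y : Fin k → Fin n → Bool => ∃ i, d ≤ hammingDist (x i) (y i))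
  rw [← maxTuples_eq] at this
  simpa [pow_mul] using this

theorem maxCode_le (n d : ℕ) : maxCode n d ≤ 2 ^ n := by
  have := maxInd_le_card (fun x y : Fin n → Bool => d ≤ hammingDist x y)
  rw [← maxCode_eq] at this
  simpa using this

theorem maxCode_anti {n d d' : ℕ} (h : d ≤ d') : maxCode n d' ≤ maxCode n d := by
  rw [maxCode_eq, maxCode_eq]
  exact maxInd_le_of_inj _ _ id Function.injective_id (fun x y _ hr => h.trans hr)

theorem maxTuples_anti {n d d' : ℕ} (k : ℕ) (h : d ≤ d') : maxTuples n d' k ≤ maxTuples n d k := by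
  rw [maxTuples_eq, maxTuples_eq]
  refine maxInd_le_of_inj _ _ id Function.injective_id ?_
  rintro x y _ ⟨i, hi⟩
  exact ⟨i, h.trans hi⟩

theorem maxCode_le_maxTuples_one (n d : ℕ) : maxCode n d ≤ maxTuples n d 1 := by
  rw [maxCode_eq, maxTuples_eq]
  refine maxInd_le_of_inj _ _ (fun x _ => x) ?_ ?_
  · intro x y h
    exact congrFun h 0
  · intro x y _ hr
    exact ⟨0, hr⟩

theorem hammingDist_split (n r : ℕ) (x y : Fin (n + r) → Bool) :
    hammingDist x y = hammingDist (fun i => x (Fin.castAdd r i)) (fun i => y (Fin.castAdd r i)) +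
      hammingDist (fun j => x (Fin.natAdd n j)) (fun j => y (Fin.natAdd n j)) := by
  classical
  simp only [hammingDist, Finset.card_filter]
  rw [Fin.sum_univ_add]

theorem maxTuples_add_le (n r d k : ℕ) : maxTuples (n + r) d k ≤ 2 ^ (r * k) * maxTuples n d k := by
  rw [maxTuples_eq, maxTuples_eq]
  have := maxInd_le_mul
    (fun x y : Fin k → Fin (n + r) → Bool => ∃ i, d ≤ hammingDist (x i) (y i))
    (fun x y : Fin k → Fin n → Bool => ∃ i, d ≤ hammingDist (x i) (y i))
    (fun x => (fun i j => x i (Fin.natAdd n j) : Fin k → Fin r → Bool))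
    (fun x => (fun i j => x i (Fin.castAdd r j)))
    (by
      intro x y hg hh
      funext i j
      refine Fin.addCases (fun j => ?_) (fun j => ?_) j
      · exact congrFun (congrFun hh i) j
      · exact congrFun (congrFun hg i) j)
    (by
      rintro x y _ hg ⟨i, hi⟩
      refine ⟨i, ?_⟩
      rw [hammingDist_split] at hi
      have h0 : hammingDist (fun j => x i (Fin.natAdd n j)) (fun j => y i (Fin.natAdd n j)) = 0 := by
        rw [hammingDist_eq_zero]
        exact congrFun hg i
      rw [h0, add_zero] at hi
      exact hi)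
  simpa [pow_mul] using this

theorem maxCode_add_le (n r d : ℕ) : maxCode (n + r) d ≤ 2 ^ r * maxCode n d := by
  rw [maxCode_eq, maxCode_eq]
  have := maxInd_le_mul
    (fun x y : Fin (n + r) → Bool => d ≤ hammingDist x y)
    (fun x y : Fin n → Bool => d ≤ hammingDist x y)
    (fun x => (fun j => x (Fin.natAdd n j) : Fin r → Bool))
    (fun x => (fun j => x (Fin.castAdd r j)))
    (by
      intro x y hg hh
      funext j
      refine Fin.addCases (fun j => ?_) (fun j => ?_) j
      · exact congrFun hh j
      · exact congrFun hg j)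
    (by
      intro x y _ hg hi
      rw [hammingDist_split] at hi
      have h0 : hammingDist (fun j => x (Fin.natAdd n j)) (fun j => y (Fin.natAdd n j)) = 0 := by
        rw [hammingDist_eq_zero]
        exact hg
      rw [h0, add_zero] at hi
      exact hi)
  simpa using this

theorem hammingDist_blocks (m n : ℕ) (x y : Fin (m * n) → Bool) :
    hammingDist x y = ∑ a : Fin m, hammingDist (fun j => x (finProdFinEquiv (a, j)))
      (fun j => y (finProdFinEquiv (a, j))) := by
  classical
  simp only [hammingDist, Finset.card_filter]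
  rw [← Fintype.sum_prod_type' (f := fun (a : Fin m) (j : Fin n) =>
    if x (finProdFinEquiv (a, j)) ≠ y (finProdFinEquiv (a, j)) then 1 else 0)]
  rw [← Equiv.sum_comp finProdFinEquiv]

theorem maxTuples_mul_le (m n d k : ℕ) (hm : 0 < m) :
    maxTuples (m * n) (m * d) k ≤ maxTuples n d (m * k) := by
  rw [maxTuples_eq, maxTuples_eq]
  refine maxInd_le_of_inj _ _
    (fun x => fun t j => x (finProdFinEquiv.symm t).2 (finProdFinEquiv ((finProdFinEquiv.symm t).1, j)))
    ?_ ?_
  · intro x y h
    funext i j
    obtain ⟨⟨a, b⟩, rfl⟩ := finProdFinEquiv.surjective j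
    have h1 := congrFun (congrFun h (finProdFinEquiv (a, i))) b
    simp only [Equiv.symm_apply_apply] at h1
    exact h1
  · rintro x y _ ⟨i, hi⟩
    rw [hammingDist_blocks] at hi
    by_contra hcon
    push Not at hcon
    have h2 : ∀ a : Fin m, hammingDist (fun j => x i (finProdFinEquiv (a, j)))
      (fun j => y i (finProdFinEquiv (a, j))) < d := by
      intro a
      have := hcon (finProdFinEquiv (a, i))
      simpa using this
    have : NeZero m := ⟨hm.ne'⟩
    have h3 : ∑ a : Fin m, hammingDist (fun j => x i (finProdFinEquiv (a, j)))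
      (fun j => y i (finProdFinEquiv (a, j))) < ∑ _a : Fin m, d :=
      Finset.sum_lt_sum_of_nonempty Finset.univ_nonempty (fun a _ => h2 a)
    rw [Finset.sum_const, Finset.card_univ, Fintype.card_fin, smul_eq_mul] at h3
    omega

end Pool.Agent.H6.BC
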