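import Mathlib

set_option autoImplicit false

namespace Pool.Agent.H6.BC

/-- largest size of a finite set of pairwise `R`-related elements -/
noncomputable def maxInd {α : Type} (R : α → α → Prop) : ℕ :=
  sSup {s : ℕ | ∃ C : Finset α, C.card = s ∧ ∀ x ∈ C, ∀ y ∈ C, x ≠ y → R x y}

theorem bddAbove_ind {α : Type} [Fintype α] (R : α → α → Prop) :
    BddAbove {s : ℕ | ∃ C : Finset α, C.card = s ∧ ∀ x ∈ C, ∀ y ∈ C, x ≠ y → R x y} := by
  refine ⟨Fintype.card α, ?_⟩
  rintro s ⟨C, rfl, -⟩
  exact Finset.card_le_univ C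

theorem exists_maxInd {α : Type} [Fintype α] (R : α → α → Prop) :
    ∃ C : Finset α, C.card = maxInd R ∧ ∀ x ∈ C, ∀ y ∈ C, x ≠ y → R x y := by
  have hne : {s : ℕ | ∃ C : Finset α, C.card = s ∧ ∀ x ∈ C, ∀ y ∈ C, x ≠ y → R x y}.Nonempty :=
    ⟨0, ∅, by simp⟩
  exact Nat.sSup_mem hne (bddAbove_ind R)

theorem le_maxInd {α : Type} [Fintype α] (R : α → α → Prop) (C : Finset α)
    (h : ∀ x ∈ C, ∀ y ∈ C, x ≠ y → R x y) : C.card ≤ maxInd R :=
  le_csSup (bddAbove_ind R) ⟨C, rfl, h⟩

theorem maxInd_le_card {α : Type} [Fintype α] (R : α → α → Prop) :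
    maxInd R ≤ Fintype.card α := by
  obtain ⟨C, hC, -⟩ := exists_maxInd R
  rw [← hC]
  exact Finset.card_le_univ C

theorem one_le_maxInd {α : Type} [Fintype α] [Nonempty α] (R : α → α → Prop) : 1 ≤ maxInd R := by
  have x : α := Classical.arbitrary α
  have := le_maxInd R {x} (by
    intro a ha b hb hab
    rw [Finset.mem_singleton] at ha hb
    exact absurd (ha.trans hb.symm) hab)
  simpa using this

theorem maxInd_le_mul {α β γ : Type} [Fintype α] [Fintype β] [Fintype γ]
    (R : α → α → Prop) (S : β → β → Prop) (g : α → γ) (h : α → β)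
    (hinj : ∀ x y, g x = g y → h x = h y → x = y)
    (hRS : ∀ x y, x ≠ y → g x = g y → R x y → S (h x) (h y)) :
    maxInd R ≤ Fintype.card γ * maxInd S := by
  classical
  obtain ⟨C, hC, hCR⟩ := exists_maxInd R
  rw [← hC]
  have h1 : C.card = ∑ c : γ, (C.filter (fun x => g x = c)).card := by
    rw [← Finset.card_eq_sum_card_fiberwise (f := g) (t := Finset.univ)]
    intro x _
    exact Finset.mem_coe.mpr (Finset.mem_univ _)
  have h2 : ∀ c : γ, (C.filter (fun x => g x = c)).card ≤ maxInd S := by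
    intro c
    have hi : Set.InjOn h (C.filter (fun x => g x = c) : Finset α) := by
      intro x hx y hy hxy
      rw [Finset.mem_coe, Finset.mem_filter] at hx hy
      exact hinj x y (hx.2.trans hy.2.symm) hxy
    rw [← Finset.card_image_of_injOn hi]
    refine le_maxInd S _ ?_
    intro u hu v hv huv
    rw [Finset.mem_image] at hu hv
    obtain ⟨x, hx, rfl⟩ := hu
    obtain ⟨y, hy, rfl⟩ := hv
    rw [Finset.mem_filter] at hx hy
    have hxy : x ≠ y := fun e => huv (by rw [e])
    exact hRS x y hxy (hx.2.trans hy.2.symm) (hCR x hx.1 y hy.1 hxy)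
  rw [h1]
  calc ∑ c : γ, (C.filter (fun x => g x = c)).card ≤ ∑ _c : γ, maxInd S :=
        Finset.sum_le_sum fun c _ => h2 c
    _ = Fintype.card γ * maxInd S := by
        rw [Finset.sum_const, Finset.card_univ, smul_eq_mul]

theorem maxInd_le_of_inj {α β : Type} [Fintype α] [Fintype β]
    (R : α → α → Prop) (S : β → β → Prop) (h : α → β) (hinj : Function.Injective h)
    (hRS : ∀ x y, x ≠ y → R x y → S (h x) (h y)) : maxInd R ≤ maxInd S := by
  have := maxInd_le_mul R S (fun _ => ()) h (fun x y _ e => hinj e) (fun x y hxy _ hr => hRS x y hxy hr)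
  simpa using this

end Pool.Agent.H6.BC
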