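import Pool.Agent.H6.BC.Cap

set_option autoImplicit false

namespace Pool.Agent.H6.BC

open Filter Topology

theorem logb_mono {a b : ℕ} (ha : 1 ≤ a) (h : a ≤ b) : Real.logb 2 (a : ℝ) ≤ Real.logb 2 (b : ℝ) := by
  have h1 : (0 : ℝ) < a := by exact_mod_cast ha
  exact Real.logb_le_logb_of_le (by norm_num) h1 (by exact_mod_cast h)

theorem logb_two_pow (k : ℕ) : Real.logb 2 (((2 ^ k : ℕ) : ℝ)) = k := by
  push_cast
  rw [Real.logb_pow]
  simp

theorem logb_mul_le {a b k : ℕ} (ha : 1 ≤ a) (hb : 1 ≤ b) (h : a ≤ 2 ^ k * b) :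
    Real.logb 2 (a : ℝ) ≤ k + Real.logb 2 (b : ℝ) := by
  have h1 := logb_mono ha h
  have h2 : (b : ℝ) ≠ 0 := by
    have : (0 : ℝ) < b := by exact_mod_cast hb
    exact this.ne'
  have h3 : Real.logb 2 (((2 ^ k * b : ℕ) : ℝ)) = k + Real.logb 2 (b : ℝ) := by
    rw [Nat.cast_mul, Real.logb_mul (by positivity) h2, logb_two_pow]
  rwa [h3] at h1

theorem logb_nonneg' {a : ℕ} (ha : 1 ≤ a) : 0 ≤ Real.logb 2 (a : ℝ) := by
  exact Real.logb_nonneg (by norm_num) (by exact_mod_cast ha)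

/-! ### the capacity -/

theorem logTuples_le (n d k : ℕ) : Real.logb 2 (maxTuples n d k) ≤ n * k := by
  have h := logb_mono (one_le_maxTuples n d k) (maxTuples_le n d k)
  rw [logb_two_pow] at h
  push_cast at h
  exact h

theorem bdd_cap (n d : ℕ) :
    BddAbove (Set.range fun k : ℕ => Real.logb 2 (maxTuples n d (k + 1)) / ((k : ℝ) + 1)) := by
  refine ⟨n, ?_⟩
  rintro _ ⟨k, rfl⟩
  have hk : (0 : ℝ) < (k : ℝ) + 1 := by positivity
  show Real.logb 2 (maxTuples n d (k + 1)) / ((k : ℝ) + 1) ≤ n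
  rw [div_le_iff₀ hk]
  have := logTuples_le n d (k + 1)
  push_cast at this
  exact this

theorem le_logCap (n d k : ℕ) :
    Real.logb 2 (maxTuples n d (k + 1)) / ((k : ℝ) + 1) ≤ logCap n d :=
  le_ciSup (bdd_cap n d) k

theorem logCap_le (n d : ℕ) : logCap n d ≤ n := by
  refine ciSup_le fun k => ?_
  have hk : (0 : ℝ) < (k : ℝ) + 1 := by positivity
  rw [div_le_iff₀ hk]
  have := logTuples_le n d (k + 1)
  push_cast at this
  exact this

theorem logCode_le_logCap (n d : ℕ) : Real.logb 2 (maxCode n d) ≤ logCap n d := by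
  have h1 := logb_mono (one_le_maxCode n d) (maxCode_le_maxTuples_one n d)
  have h2 := le_logCap n d 0
  simp only [Nat.cast_zero, zero_add, div_one] at h2
  exact h1.trans h2

theorem logCode_nonneg (n d : ℕ) : 0 ≤ Real.logb 2 (maxCode n d) :=
  logb_nonneg' (one_le_maxCode n d)

theorem logCap_nonneg (n d : ℕ) : 0 ≤ logCap n d :=
  (logCode_nonneg n d).trans (logCode_le_logCap n d)

theorem logCap_anti {n d d' : ℕ} (h : d ≤ d') : logCap n d' ≤ logCap n d := by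
  refine ciSup_le fun k => ?_
  have hk : (0 : ℝ) < (k : ℝ) + 1 := by positivity
  refine le_trans ?_ (le_logCap n d k)
  exact div_le_div_of_nonneg_right (logb_mono (one_le_maxTuples _ _ _) (maxTuples_anti _ h)) hk.le

theorem logCap_add_le (n r d : ℕ) : logCap (n + r) d ≤ logCap n d + r := by
  refine ciSup_le fun k => ?_
  have hk : (0 : ℝ) < (k : ℝ) + 1 := by positivity
  have h1 := logb_mul_le (one_le_maxTuples _ _ _) (one_le_maxTuples _ _ _)
    (maxTuples_add_le n r d (k + 1))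
  have h2 := le_logCap n d k
  rw [div_le_iff₀ hk] at h2 ⊢
  push_cast at h1
  nlinarith [h1, h2]

theorem logCap_mul_le (m n d : ℕ) (hm : 0 < m) : logCap (m * n) (m * d) ≤ m * logCap n d := by
  refine ciSup_le fun k => ?_
  have hk : (0 : ℝ) < (k : ℝ) + 1 := by positivity
  have hmR : (0 : ℝ) < m := by exact_mod_cast hm
  have h1 := logb_mono (one_le_maxTuples _ _ _) (maxTuples_mul_le m n d (k + 1) hm)
  obtain ⟨t, ht⟩ : ∃ t, m * (k + 1) = t + 1 :=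
    ⟨m * (k + 1) - 1, by have : 0 < m * (k + 1) := by positivity
                         omega⟩
  rw [ht] at h1
  have h2 := le_logCap n d t
  have ht' : (0 : ℝ) < (t : ℝ) + 1 := by positivity
  have ht2 : (m : ℝ) * ((k : ℝ) + 1) = (t : ℝ) + 1 := by exact_mod_cast ht
  rw [div_le_iff₀ ht'] at h2
  rw [div_le_iff₀ hk]
  calc Real.logb 2 (maxTuples (m * n) (m * d) (k + 1)) ≤ logCap n d * ((t : ℝ) + 1) := h1.trans h2
    _ = m * logCap n d * ((k : ℝ) + 1) := by rw [← ht2]; ring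

theorem cap_seq (δ : ℝ) (hδ : 0 ≤ δ) (m n r : ℕ) :
    logCap (m * n + r) ⌊δ * ((m * n + r : ℕ) : ℝ)⌋₊ ≤ m * logCap n ⌊δ * (n : ℝ)⌋₊ + r := by
  rcases Nat.eq_zero_or_pos m with rfl | hm
  · simp only [zero_mul, zero_add, Nat.cast_zero]
    exact logCap_le _ _
  · have h1 := logCap_add_le (m * n) r ⌊δ * ((m * n + r : ℕ) : ℝ)⌋₊
    have h2 : m * ⌊δ * (n : ℝ)⌋₊ ≤ ⌊δ * ((m * n + r : ℕ) : ℝ)⌋₊ := by
      refine Nat.le_floor ?_
      push_cast
      have h3 : ((⌊δ * (n : ℝ)⌋₊ : ℕ) : ℝ) ≤ δ * n := Nat.floor_le (by positivity)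
      have h4 : (m : ℝ) * (⌊δ * (n : ℝ)⌋₊ : ℝ) ≤ m * (δ * n) :=
        mul_le_mul_of_nonneg_left h3 (by positivity)
      have h5 : 0 ≤ δ * r := by positivity
      nlinarith
    have h3 := logCap_anti (n := m * n) h2
    have h4 := logCap_mul_le m n ⌊δ * (n : ℝ)⌋₊ hm
    linarith

theorem tendsto_of_mul_add {u : ℕ → ℝ} (h0 : ∀ n, 0 ≤ u n)
    (h : ∀ m n r : ℕ, u (m * n + r) ≤ m * u n + r) :
    ∃ C, Tendsto (fun n : ℕ => u n / n) atTop (𝓝 C) ∧ ∀ n : ℕ, 0 < n → C ≤ u n / n := by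
  set S : Set ℝ := (fun n : ℕ => u n / n) '' {n | 0 < n} with hS
  have hbdd : BddBelow S := by
    refine ⟨0, ?_⟩
    rintro _ ⟨n, _, rfl⟩
    exact div_nonneg (h0 n) (Nat.cast_nonneg n)
  have hne : S.Nonempty := ⟨_, ⟨1, Nat.one_pos, rfl⟩⟩
  have hle : ∀ n : ℕ, 0 < n → sInf S ≤ u n / n := fun n hn => csInf_le hbdd ⟨n, hn, rfl⟩
  refine ⟨sInf S, ?_, hle⟩
  rw [Metric.tendsto_atTop]
  intro ε hε
  obtain ⟨_, ⟨n0, hn0, rfl⟩, hlt⟩ := exists_lt_of_csInf_lt hne (show sInf S < sInf S + ε / 2 by linarith)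
  have hn0' : (0 : ℝ) < n0 := by exact_mod_cast hn0
  obtain ⟨N0, hN0⟩ := exists_nat_gt (2 * n0 / ε)
  refine ⟨max N0 1, fun N hN => ?_⟩
  have hN1 : 0 < N := lt_of_lt_of_le Nat.one_pos ((le_max_right _ _).trans hN)
  have hNR : (0 : ℝ) < N := by exact_mod_cast hN1
  have hN2 : (N0 : ℝ) ≤ N := by exact_mod_cast (le_max_left _ _).trans hN
  have hdm : (N / n0) * n0 + N % n0 = N := by rw [mul_comm]; exact Nat.div_add_mod N n0
  have h1 := h (N / n0) n0 (N % n0)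
  rw [hdm] at h1
  have h2 : ((N % n0 : ℕ) : ℝ) ≤ n0 := by exact_mod_cast (Nat.mod_lt N hn0).le
  have h3 : ((N / n0 : ℕ) : ℝ) * n0 ≤ N := by exact_mod_cast Nat.div_mul_le_self N n0
  have h4 : ((N / n0 : ℕ) : ℝ) * u n0 ≤ N * (u n0 / n0) := by
    have e : ((N / n0 : ℕ) : ℝ) * u n0 = (((N / n0 : ℕ) : ℝ) * n0) * (u n0 / n0) := by
      field_simp
    rw [e]
    exact mul_le_mul_of_nonneg_right h3 (div_nonneg (h0 _) hn0'.le)
  have h5 : u N / N ≤ u n0 / n0 + n0 / N := by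
    rw [div_le_iff₀ hNR]
    have e : (u n0 / n0 + n0 / N) * N = N * (u n0 / n0) + n0 := by
      field_simp
    rw [e]
    linarith
  have h6 : (n0 : ℝ) / N < ε / 2 := by
    rw [div_lt_iff₀ hNR]
    have : 2 * (n0 : ℝ) / ε < N := lt_of_lt_of_le hN0 hN2
    rw [div_lt_iff₀ hε] at this
    linarith
  have h7 := hle N hN1
  rw [Real.dist_eq, abs_lt]
  constructor <;> linarith

/-- log of the code sizes -/
noncomputable def LL (δ : ℝ) (n : ℕ) : ℝ := Real.logb 2 (maxCode n ⌊δ * (n : ℝ)⌋₊)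

theorem LL_nonneg (δ : ℝ) (n : ℕ) : 0 ≤ LL δ n := logCode_nonneg _ _

theorem LL_le (δ : ℝ) (n : ℕ) : LL δ n ≤ n := (logCode_le_logCap _ _).trans (logCap_le _ _)

theorem LL_step {δ δ' : ℝ} {m n : ℕ} (hmn : m ≤ n) (h : δ' * m ≤ δ * n) :
    LL δ n ≤ LL δ' m + ((n : ℝ) - m) := by
  obtain ⟨r, rfl⟩ := Nat.exists_eq_add_of_le hmn
  have h1 : ⌊δ' * (m : ℝ)⌋₊ ≤ ⌊δ * ((m + r : ℕ) : ℝ)⌋₊ := Nat.floor_le_floor h
  have h2 := logb_mul_le (one_le_maxCode _ _) (one_le_maxCode _ _)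
    (maxCode_add_le m r ⌊δ * ((m + r : ℕ) : ℝ)⌋₊)
  have h3 := logb_mono (one_le_maxCode _ _) (maxCode_anti (n := m) h1)
  unfold LL
  push_cast at h2 h3 ⊢
  linarith

end Pool.Agent.H6.BC
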