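import Pool.Agent.H6.BC.Stab

set_option autoImplicit false

namespace Pool.Agent.H6.BC

open Filter Topology

theorem cap_limit (δ : ℝ) (hδ : 0 ≤ δ) : ∃ C : ℝ,
    Tendsto (fun n : ℕ => logCap n ⌊δ * (n : ℝ)⌋₊ / n) atTop (𝓝 C) ∧
    (∀ n : ℕ, 0 < n → C ≤ logCap n ⌊δ * (n : ℝ)⌋₊ / n) ∧
    ∀ ε > 0, ∀ᶠ n : ℕ in atTop, Real.logb 2 (maxCode n ⌊δ * (n : ℝ)⌋₊) / n < C + ε := by
  obtain ⟨C, hC, hC2⟩ := tendsto_of_mul_add (u := fun n => logCap n ⌊δ * (n : ℝ)⌋₊)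
    (fun n => logCap_nonneg _ _) (cap_seq δ hδ)
  refine ⟨C, hC, hC2, fun ε hε => ?_⟩
  filter_upwards [hC.eventually_lt_const (show C < C + ε by linarith)] with n hn
  exact lt_of_le_of_lt (div_le_div_of_nonneg_right (logCode_le_logCap _ _) (Nat.cast_nonneg n)) hn

theorem gap_of_failure {δ : ℝ} (hδ : 0 < δ) (h : ¬ RateExists δ) :
    ∃ ε : ℝ, 0 < ε ∧ ∃ᶠ n : ℕ in atTop, ∃ k : ℕ,
      ((2 : ℝ) ^ (ε * (n : ℝ)) * (maxCode n ⌊δ * (n : ℝ)⌋₊ : ℝ)) ^ (k + 1) ≤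
        (maxTuples n ⌊δ * (n : ℝ)⌋₊ (k + 1) : ℝ) := by
  by_contra hcon
  push Not at hcon
  apply h
  obtain ⟨C, hC, -, hC3⟩ := cap_limit δ hδ.le
  refine exists_lim_of_approx fun ε hε => ?_
  refine ⟨C, ?_⟩
  have h1 := hcon (ε / 2) (by positivity)
  filter_upwards [h1, hC3 ε hε, hC.eventually_const_lt (show C - ε / 2 < C by linarith),
    eventually_gt_atTop 0] with n hn1 hn2 hn3 hn4
  have hn : (0 : ℝ) < n := by exact_mod_cast hn4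
  have hA : (0 : ℝ) < (maxCode n ⌊δ * (n : ℝ)⌋₊ : ℝ) := by exact_mod_cast one_le_maxCode _ _
  have hcap : logCap n ⌊δ * (n : ℝ)⌋₊ ≤ ε / 2 * n + Real.logb 2 (maxCode n ⌊δ * (n : ℝ)⌋₊) := by
    refine ciSup_le fun k => ?_
    have hk : (0 : ℝ) < (k : ℝ) + 1 := by positivity
    rw [div_le_iff₀ hk]
    have hM : (0 : ℝ) < (maxTuples n ⌊δ * (n : ℝ)⌋₊ (k + 1) : ℝ) := by
      exact_mod_cast one_le_maxTuples _ _ _
    have h2 := Real.logb_le_logb_of_le (b := 2) (by norm_num) hM (hn1 k).le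
    rw [Real.logb_pow, Real.logb_mul (by positivity) hA.ne', Real.logb_rpow (by norm_num)
      (by norm_num)] at h2
    push_cast at h2
    linarith
  have h3 : C - ε < Real.logb 2 (maxCode n ⌊δ * (n : ℝ)⌋₊) / n := by
    have h4 : logCap n ⌊δ * (n : ℝ)⌋₊ / n ≤
        (ε / 2 * n + Real.logb 2 (maxCode n ⌊δ * (n : ℝ)⌋₊)) / n :=
      div_le_div_of_nonneg_right hcap hn.le
    rw [add_div, mul_div_cancel_right₀ _ hn.ne'] at h4
    linarith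
  rw [abs_le]
  constructor <;> linarith

end Pool.Agent.H6.BC
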