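import Pool.Agent.H6.BC.Lim

set_option autoImplicit false

namespace Pool.Agent.H6.BC

open Filter Topology

/-- the limit in the question exists at `δ` -/
def RateExists (δ : ℝ) : Prop :=
  ∃ L : ℝ, Tendsto (fun n : ℕ => Real.logb 2 (maxCode n ⌊δ * (n : ℝ)⌋₊) / (n : ℝ)) atTop (𝓝 L)

theorem exists_lim_of_approx {a : ℕ → ℝ}
    (h : ∀ ε > 0, ∃ R : ℝ, ∀ᶠ n in atTop, |a n - R| ≤ ε) : ∃ L, Tendsto a atTop (𝓝 L) := by
  have hc : CauchySeq a := by
    rw [Metric.cauchySeq_iff]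
    intro ε hε
    obtain ⟨R, hR⟩ := h (ε / 3) (by positivity)
    obtain ⟨N, hN⟩ := eventually_atTop.mp hR
    refine ⟨N, fun m hm n hn => ?_⟩
    have h1 := abs_le.mp (hN m hm)
    have h2 := abs_le.mp (hN n hn)
    rw [Real.dist_eq, abs_lt]
    constructor <;> linarith [h1.1, h1.2, h2.1, h2.2]
  exact cauchySeq_tendsto_of_complete hc

theorem tendsto_natFloor_mul_div {t : ℝ} (ht : 0 ≤ t) :
    Tendsto (fun n : ℕ => ((⌊(n : ℝ) * t⌋₊ : ℕ) : ℝ) / n) atTop (𝓝 t) := by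
  have h := (tendsto_nat_floor_mul_div_atTop (R := ℝ) ht).comp tendsto_natCast_atTop_atTop
  refine h.congr fun n => ?_
  simp [mul_comm]

theorem tendsto_natCeil_mul_div {t : ℝ} (ht : 0 ≤ t) :
    Tendsto (fun n : ℕ => ((⌈(n : ℝ) * t⌉₊ : ℕ) : ℝ) / n) atTop (𝓝 t) := by
  have h := (tendsto_nat_ceil_mul_div_atTop (R := ℝ) ht).comp tendsto_natCast_atTop_atTop
  refine h.congr fun n => ?_
  simp [mul_comm]

theorem lim_mem {δ R : ℝ} (h : Tendsto (fun n : ℕ => LL δ n / n) atTop (𝓝 R)) : 0 ≤ R ∧ R ≤ 1 := by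
  constructor
  · exact ge_of_tendsto' h fun n => div_nonneg (LL_nonneg _ _) (Nat.cast_nonneg n)
  · refine le_of_tendsto h (eventually_atTop.mpr ⟨1, fun n hn => ?_⟩)
    have : (0 : ℝ) < n := by exact_mod_cast hn
    rw [div_le_one this]
    exact LL_le δ n

theorem LL_mono {δ δ' : ℝ} (h : δ ≤ δ') (n : ℕ) : LL δ' n ≤ LL δ n := by
  have := LL_step (δ := δ') (δ' := δ) (m := n) (n := n) le_rfl
    (mul_le_mul_of_nonneg_right h (Nat.cast_nonneg n))
  simpa using this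

/-- for `δ ≤ δ'` -/
theorem approx_below {δ δ' R : ℝ} (hδ : 0 < δ) (hle : δ ≤ δ')
    (h : Tendsto (fun n : ℕ => LL δ' n / n) atTop (𝓝 R)) {ε : ℝ} (hε : 0 < ε) :
    ∀ᶠ n : ℕ in atTop, R - ε ≤ LL δ n / n ∧ LL δ n / n ≤ R + (1 - δ / δ') + ε := by
  have hδ' : 0 < δ' := lt_of_lt_of_le hδ hle
  set t : ℝ := δ / δ' with ht
  have ht0 : 0 < t := div_pos hδ hδ'
  have ht1 : t ≤ 1 := (div_le_one hδ').mpr hle
  obtain ⟨hR0, hR1⟩ := lim_mem h
  have h1 := tendsto_natFloor_mul_div ht0.le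
  have h2 : Tendsto (fun n : ℕ => ⌊(n : ℝ) * t⌋₊) atTop atTop := by
    refine tendsto_nat_floor_atTop.comp ?_
    exact (tendsto_natCast_atTop_atTop).atTop_mul_const ht0
  have h3 := h.comp h2
  have h4 : Tendsto (fun n : ℕ => (((⌊(n : ℝ) * t⌋₊ : ℕ) : ℝ) / n) *
      (LL δ' ⌊(n : ℝ) * t⌋₊ / ((⌊(n : ℝ) * t⌋₊ : ℕ) : ℝ)) + (1 - ((⌊(n : ℝ) * t⌋₊ : ℕ) : ℝ) / n))
      atTop (𝓝 (t * R + (1 - t))) :=
    (h1.mul h3).add (tendsto_const_nhds.sub h1)
  have h5 : t * R + (1 - t) < R + (1 - t) + ε := by nlinarith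
  filter_upwards [h4.eventually_lt_const h5, h.eventually_const_lt (show R - ε < R by linarith),
    eventually_gt_atTop 0, h2.eventually_gt_atTop 0] with n hn1 hn2 hn3 hn4
  have hn : (0 : ℝ) < n := by exact_mod_cast hn3
  have hm : (0 : ℝ) < ((⌊(n : ℝ) * t⌋₊ : ℕ) : ℝ) := by exact_mod_cast hn4
  constructor
  · have := LL_mono hle n
    have h6 : LL δ' n / n ≤ LL δ n / n := div_le_div_of_nonneg_right this hn.le
    linarith
  · have hfl : ((⌊(n : ℝ) * t⌋₊ : ℕ) : ℝ) ≤ n * t := Nat.floor_le (by positivity)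
    have hmn : ⌊(n : ℝ) * t⌋₊ ≤ n := by
      have : ((⌊(n : ℝ) * t⌋₊ : ℕ) : ℝ) ≤ n := hfl.trans (by nlinarith)
      exact_mod_cast this
    have h6 : δ' * ((⌊(n : ℝ) * t⌋₊ : ℕ) : ℝ) ≤ δ * n := by
      calc δ' * ((⌊(n : ℝ) * t⌋₊ : ℕ) : ℝ) ≤ δ' * (n * t) := mul_le_mul_of_nonneg_left hfl hδ'.le
        _ = δ * n := by rw [ht]; field_simp
    have h7 := LL_step hmn h6
    have h8 : LL δ n / n ≤ (((⌊(n : ℝ) * t⌋₊ : ℕ) : ℝ) / n) *
      (LL δ' ⌊(n : ℝ) * t⌋₊ / ((⌊(n : ℝ) * t⌋₊ : ℕ) : ℝ)) + (1 - ((⌊(n : ℝ) * t⌋₊ : ℕ) : ℝ) / n) := by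
      rw [div_le_iff₀ hn]
      have e : ((((⌊(n : ℝ) * t⌋₊ : ℕ) : ℝ) / n) *
        (LL δ' ⌊(n : ℝ) * t⌋₊ / ((⌊(n : ℝ) * t⌋₊ : ℕ) : ℝ)) + (1 - ((⌊(n : ℝ) * t⌋₊ : ℕ) : ℝ) / n)) * n =
        LL δ' ⌊(n : ℝ) * t⌋₊ + ((n : ℝ) - ((⌊(n : ℝ) * t⌋₊ : ℕ) : ℝ)) := by
        field_simp
      rw [e]
      exact h7
    exact h8.trans hn1.le

/-- for `δ' ≤ δ` -/
theorem approx_above {δ δ' R : ℝ} (hδ' : 0 < δ') (hle : δ' ≤ δ)
    (h : Tendsto (fun n : ℕ => LL δ' n / n) atTop (𝓝 R)) {ε : ℝ} (hε : 0 < ε) :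
    ∀ᶠ n : ℕ in atTop, R - (δ / δ' - 1) - ε ≤ LL δ n / n ∧ LL δ n / n ≤ R + ε := by
  have hδ : 0 < δ := lt_of_lt_of_le hδ' hle
  set t : ℝ := δ / δ' with ht
  have ht1 : 1 ≤ t := (one_le_div hδ').mpr hle
  have ht0 : 0 < t := by linarith
  obtain ⟨hR0, hR1⟩ := lim_mem h
  have h1 := tendsto_natCeil_mul_div ht0.le
  have h2 : Tendsto (fun n : ℕ => ⌈(n : ℝ) * t⌉₊) atTop atTop := by
    refine tendsto_nat_ceil_atTop.comp ?_
    exact (tendsto_natCast_atTop_atTop).atTop_mul_const ht0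
  have h3 := h.comp h2
  have h4 : Tendsto (fun n : ℕ => (((⌈(n : ℝ) * t⌉₊ : ℕ) : ℝ) / n) *
      (LL δ' ⌈(n : ℝ) * t⌉₊ / ((⌈(n : ℝ) * t⌉₊ : ℕ) : ℝ)) - (((⌈(n : ℝ) * t⌉₊ : ℕ) : ℝ) / n - 1))
      atTop (𝓝 (t * R - (t - 1))) :=
    (h1.mul h3).sub (h1.sub tendsto_const_nhds)
  have h5 : R - (t - 1) - ε < t * R - (t - 1) := by nlinarith
  filter_upwards [h4.eventually_const_lt h5, h.eventually_lt_const (show R < R + ε by linarith),
    eventually_gt_atTop 0, h2.eventually_gt_atTop 0] with n hn1 hn2 hn3 hn4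
  have hn : (0 : ℝ) < n := by exact_mod_cast hn3
  have hm : (0 : ℝ) < ((⌈(n : ℝ) * t⌉₊ : ℕ) : ℝ) := by exact_mod_cast hn4
  constructor
  · have hcl : (n : ℝ) * t ≤ ((⌈(n : ℝ) * t⌉₊ : ℕ) : ℝ) := Nat.le_ceil _
    have hmn : n ≤ ⌈(n : ℝ) * t⌉₊ := by
      have : (n : ℝ) ≤ ((⌈(n : ℝ) * t⌉₊ : ℕ) : ℝ) := le_trans (by nlinarith) hcl
      exact_mod_cast this
    have h6 : δ * n ≤ δ' * ((⌈(n : ℝ) * t⌉₊ : ℕ) : ℝ) := by
      calc δ * n = δ' * (n * t) := by rw [ht]; field_simp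
        _ ≤ _ := mul_le_mul_of_nonneg_left hcl hδ'.le
    have h7 := LL_step hmn h6
    have h8 : (((⌈(n : ℝ) * t⌉₊ : ℕ) : ℝ) / n) *
      (LL δ' ⌈(n : ℝ) * t⌉₊ / ((⌈(n : ℝ) * t⌉₊ : ℕ) : ℝ)) - (((⌈(n : ℝ) * t⌉₊ : ℕ) : ℝ) / n - 1)
      ≤ LL δ n / n := by
      rw [le_div_iff₀ hn]
      have e : ((((⌈(n : ℝ) * t⌉₊ : ℕ) : ℝ) / n) *
        (LL δ' ⌈(n : ℝ) * t⌉₊ / ((⌈(n : ℝ) * t⌉₊ : ℕ) : ℝ)) - (((⌈(n : ℝ) * t⌉₊ : ℕ) : ℝ) / n - 1)) * n =
        LL δ' ⌈(n : ℝ) * t⌉₊ - (((⌈(n : ℝ) * t⌉₊ : ℕ) : ℝ) - (n : ℝ)) := by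
        field_simp
      rw [e]
      linarith
    exact hn1.le.trans h8
  · have := LL_mono hle n
    have h6 : LL δ n / n ≤ LL δ' n / n := div_le_div_of_nonneg_right this hn.le
    linarith

theorem approx {δ δ' R : ℝ} (hδ : 0 < δ) (hδ' : 0 < δ')
    (h : Tendsto (fun n : ℕ => LL δ' n / n) atTop (𝓝 R)) {ε : ℝ} (hε : 0 < ε) :
    ∀ᶠ n : ℕ in atTop, |LL δ n / n - R| ≤ |δ - δ'| / δ' + ε := by
  rcases le_total δ δ' with hle | hle
  · filter_upwards [approx_below hδ hle h hε] with n hn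
    have e : |δ - δ'| / δ' = 1 - δ / δ' := by
      rw [abs_of_nonpos (by linarith)]
      field_simp
      ring
    have h0 : 0 ≤ |δ - δ'| / δ' := by positivity
    rw [abs_le]
    rw [← e] at hn
    constructor <;> linarith [hn.1, hn.2]
  · filter_upwards [approx_above hδ' hle h hε] with n hn
    have e : |δ - δ'| / δ' = δ / δ' - 1 := by
      rw [abs_of_nonneg (by linarith)]
      field_simp
    have h0 : 0 ≤ |δ - δ'| / δ' := by positivity
    rw [abs_le]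
    rw [← e] at hn
    constructor <;> linarith [hn.1, hn.2]

/-- the limit exists at `δ` if it exists arbitrarily close to `δ` -/
theorem rateExists_of_near {δ : ℝ} (hδ : 0 < δ)
    (h : ∀ η > 0, ∃ δ', |δ' - δ| < η ∧ 0 < δ' ∧ RateExists δ') : RateExists δ := by
  refine exists_lim_of_approx fun ε hε => ?_
  obtain ⟨δ', h1, h2, R, hR⟩ := h (min (δ / 2) (ε * δ / 4)) (by positivity)
  refine ⟨R, ?_⟩
  have h3 : |δ' - δ| < δ / 2 := lt_of_lt_of_le h1 (min_le_left _ _)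
  have h4 : |δ' - δ| < ε * δ / 4 := lt_of_lt_of_le h1 (min_le_right _ _)
  have h5 : δ / 2 < δ' := by
    have := (abs_lt.mp h3).1
    linarith
  have h6 : |δ - δ'| / δ' ≤ ε / 2 := by
    rw [abs_sub_comm, div_le_iff₀ h2]
    nlinarith
  filter_upwards [approx hδ h2 hR (show 0 < ε / 2 by positivity)] with n hn
  have : |LL δ n / n - R| ≤ ε := by linarith
  exact this

/-- the set of `δ` at which the limit fails is open -/
theorem open_failure {δ : ℝ} (hδ : 0 < δ) (h : ¬ RateExists δ) :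
    ∃ η > 0, ∀ δ', |δ' - δ| < η → ¬ RateExists δ' := by
  by_contra hcon
  push Not at hcon
  refine h (rateExists_of_near hδ fun η hη => ?_)
  obtain ⟨δ', h1, h2⟩ := hcon (min η δ) (by positivity)
  refine ⟨δ', lt_of_lt_of_le h1 (min_le_left _ _), ?_, h2⟩
  have := (abs_lt.mp (lt_of_lt_of_le h1 (min_le_right _ _))).1
  linarith

theorem floor_frac (p q k : ℕ) (hq : 0 < q) :
    ⌊((p : ℝ) / q) * ((q * k : ℕ) : ℝ)⌋₊ = p * k := by
  have hq' : (q : ℝ) ≠ 0 := by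
    have : (0 : ℝ) < q := by exact_mod_cast hq
    exact this.ne'
  have e : ((p : ℝ) / q) * ((q * k : ℕ) : ℝ) = ((p * k : ℕ) : ℝ) := by
    push_cast
    field_simp
  rw [e, Nat.floor_natCast]

theorem rate_rational_iff (p q : ℕ) (hq : 0 < q) :
    RateExists ((p : ℝ) / q) ↔
      ∃ L : ℝ, Tendsto (fun k : ℕ => Real.logb 2 (maxCode (q * k) (p * k)) / ((q : ℝ) * k))
        atTop (𝓝 L) := by
  have hqR : (0 : ℝ) < q := by exact_mod_cast hq
  have hev : ∀ k : ℕ, Real.logb 2 (maxCode (q * k) (p * k)) = LL ((p : ℝ) / q) (q * k) := by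
    intro k
    unfold LL
    rw [floor_frac p q k hq]
  constructor
  · rintro ⟨L, hL⟩
    refine ⟨L, ?_⟩
    have h1 : Tendsto (fun k : ℕ => q * k) atTop atTop :=
      tendsto_id.const_mul_atTop' hq
    refine (hL.comp h1).congr fun k => ?_
    show LL ((p : ℝ) / q) (q * k) / ((q * k : ℕ) : ℝ) = _
    rw [hev]
    push_cast
    rfl
  · rintro ⟨L, hL⟩
    refine ⟨L, ?_⟩
    show Tendsto (fun n : ℕ => LL ((p : ℝ) / q) n / n) atTop (𝓝 L)
    have hL' : Tendsto (fun k : ℕ => LL ((p : ℝ) / q) (q * k) / ((q : ℝ) * k)) atTop (𝓝 L) :=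
      hL.congr fun k => by rw [hev]
    have hd : Tendsto (fun n : ℕ => n / q) atTop atTop := Nat.tendsto_div_const_atTop hq.ne'
    -- ratio q*(n/q)/n tends to 1
    have hr : Tendsto (fun n : ℕ => ((q : ℝ) * ((n / q : ℕ) : ℝ)) / n) atTop (𝓝 1) := by
      have h1 : Tendsto (fun n : ℕ => 1 - (q : ℝ) / n) atTop (𝓝 (1 - 0)) :=
        tendsto_const_nhds.sub (tendsto_const_div_atTop_nhds_zero_nat (q : ℝ))
      rw [sub_zero] at h1
      refine tendsto_of_tendsto_of_tendsto_of_le_of_le' h1 tendsto_const_nhds ?_ ?_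
      · filter_upwards [eventually_gt_atTop 0] with n hn
        have hn' : (0 : ℝ) < n := by exact_mod_cast hn
        have h2 : (n : ℝ) ≤ q * ((n / q : ℕ) : ℝ) + q := by
          have : n ≤ q * (n / q) + q := by
            have := Nat.div_add_mod n q
            have := Nat.mod_lt n hq
            omega
          exact_mod_cast this
        rw [le_div_iff₀ hn', sub_mul, one_mul, div_mul_cancel₀ _ hn'.ne']
        linarith
      · filter_upwards [eventually_gt_atTop 0] with n hn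
        have hn' : (0 : ℝ) < n := by exact_mod_cast hn
        rw [div_le_one hn']
        exact_mod_cast Nat.mul_div_le n q
    have hr2 : Tendsto (fun n : ℕ => ((q : ℝ) * ((n / q + 1 : ℕ) : ℝ)) / n) atTop (𝓝 1) := by
      have h1 : Tendsto (fun n : ℕ => ((q : ℝ) * ((n / q : ℕ) : ℝ)) / n + (q : ℝ) / n) atTop (𝓝 (1 + 0)) :=
        hr.add (tendsto_const_div_atTop_nhds_zero_nat (q : ℝ))
      rw [add_zero] at h1
      refine h1.congr fun n => ?_
      push_cast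
      ring
    have hz : Tendsto (fun n : ℕ => (q : ℝ) / n) atTop (𝓝 0) :=
      tendsto_const_div_atTop_nhds_zero_nat (q : ℝ)
    have hup : Tendsto (fun n : ℕ => (((q : ℝ) * ((n / q : ℕ) : ℝ)) / n) *
        (LL ((p : ℝ) / q) (q * (n / q)) / ((q : ℝ) * ((n / q : ℕ) : ℝ))) + (q : ℝ) / n)
        atTop (𝓝 (1 * L + 0)) := (hr.mul (hL'.comp hd)).add hz
    have hlo : Tendsto (fun n : ℕ => (((q : ℝ) * ((n / q + 1 : ℕ) : ℝ)) / n) *
        (LL ((p : ℝ) / q) (q * (n / q + 1)) / ((q : ℝ) * ((n / q + 1 : ℕ) : ℝ))) - (q : ℝ) / n)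
        atTop (𝓝 (1 * L - 0)) :=
      (hr2.mul (hL'.comp ((tendsto_add_atTop_nat 1).comp hd))).sub hz
    rw [one_mul, add_zero] at hup
    rw [one_mul, sub_zero] at hlo
    refine tendsto_of_tendsto_of_tendsto_of_le_of_le' hlo hup ?_ ?_
    · filter_upwards [eventually_gt_atTop 0] with n hn
      have hn' : (0 : ℝ) < n := by exact_mod_cast hn
      have hm : n ≤ q * (n / q + 1) := by
        have := Nat.div_add_mod n q
        have := Nat.mod_lt n hq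
        rw [mul_add, mul_one]
        omega
      have hm2 : q * (n / q + 1) ≤ n + q := by
        have := Nat.mul_div_le n q
        rw [mul_add, mul_one]
        omega
      have h0 : 0 ≤ (p : ℝ) / q := by positivity
      have h6 : (p : ℝ) / q * n ≤ (p : ℝ) / q * ((q * (n / q + 1) : ℕ) : ℝ) :=
        mul_le_mul_of_nonneg_left (by exact_mod_cast hm) h0
      have h7 := LL_step hm h6
      have h8 : ((q * (n / q + 1) : ℕ) : ℝ) ≤ n + q := by exact_mod_cast hm2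
      have hpos : (0 : ℝ) < (q : ℝ) * ((n / q + 1 : ℕ) : ℝ) := by positivity
      rw [le_div_iff₀ hn']
      have e : ((((q : ℝ) * ((n / q + 1 : ℕ) : ℝ)) / n) *
        (LL ((p : ℝ) / q) (q * (n / q + 1)) / ((q : ℝ) * ((n / q + 1 : ℕ) : ℝ))) - (q : ℝ) / n) * n =
        LL ((p : ℝ) / q) (q * (n / q + 1)) - q := by
        field_simp
      rw [e]
      linarith
    · filter_upwards [eventually_gt_atTop 0, hd.eventually_gt_atTop 0] with n hn hn2
      have hn' : (0 : ℝ) < n := by exact_mod_cast hn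
      have hn2' : (0 : ℝ) < ((n / q : ℕ) : ℝ) := by exact_mod_cast hn2
      have hm : q * (n / q) ≤ n := Nat.mul_div_le n q
      have hm2 : n ≤ q * (n / q) + q := by
        have := Nat.div_add_mod n q
        have := Nat.mod_lt n hq
        omega
      have h0 : 0 ≤ (p : ℝ) / q := by positivity
      have h6 : (p : ℝ) / q * ((q * (n / q) : ℕ) : ℝ) ≤ (p : ℝ) / q * n :=
        mul_le_mul_of_nonneg_left (by exact_mod_cast hm) h0
      have h7 := LL_step hm h6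
      have h8 : (n : ℝ) ≤ ((q * (n / q) : ℕ) : ℝ) + q := by exact_mod_cast hm2
      have hpos : (0 : ℝ) < (q : ℝ) * ((n / q : ℕ) : ℝ) := by positivity
      rw [div_le_iff₀ hn']
      have e : ((((q : ℝ) * ((n / q : ℕ) : ℝ)) / n) *
        (LL ((p : ℝ) / q) (q * (n / q)) / ((q : ℝ) * ((n / q : ℕ) : ℝ))) + (q : ℝ) / n) * n =
        LL ((p : ℝ) / q) (q * (n / q)) + q := by
        field_simp
      rw [e]
      linarith

theorem all_iff_rational :
    (∀ δ : ℝ, 0 < δ → δ < 1 / 2 → RateExists δ) ↔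
      ∀ p q : ℕ, 0 < p → 2 * p < q →
        ∃ L : ℝ, Tendsto (fun k : ℕ => Real.logb 2 (maxCode (q * k) (p * k)) / ((q : ℝ) * k))
          atTop (𝓝 L) := by
  constructor
  · intro h p q hp hpq
    have hq : 0 < q := by omega
    rw [← rate_rational_iff p q hq]
    have hqR : (0 : ℝ) < q := by exact_mod_cast hq
    have hpR : (0 : ℝ) < p := by exact_mod_cast hp
    refine h _ (by positivity) ?_
    rw [div_lt_div_iff₀ hqR (by norm_num)]
    have : (2 : ℝ) * p < q := by exact_mod_cast hpq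
    linarith
  · intro h δ hδ hδ2
    refine rateExists_of_near hδ fun η hη => ?_
    obtain ⟨x, hx1, hx2⟩ := exists_rat_btwn (show δ < min (δ + η) (1 / 2) by
      rw [lt_min_iff]; constructor <;> linarith)
    have hx0 : (0 : ℝ) < x := lt_trans hδ hx1
    have hx0' : 0 < x := by exact_mod_cast hx0
    have hxη : (x : ℝ) < δ + η := lt_of_lt_of_le hx2 (min_le_left _ _)
    have hxh : (x : ℝ) < 1 / 2 := lt_of_lt_of_le hx2 (min_le_right _ _)
    refine ⟨x, ?_, hx0, ?_⟩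
    · rw [abs_lt]
      constructor <;> linarith
    · have e : (x : ℝ) = ((x.num.toNat : ℕ) : ℝ) / ((x.den : ℕ) : ℝ) := by
        have h1 : ((x.num.toNat : ℕ) : ℤ) = x.num := Int.toNat_of_nonneg (Rat.num_nonneg.mpr hx0'.le)
        have h2 : ((x.num.toNat : ℕ) : ℝ) = ((x.num : ℤ) : ℝ) :=
          (Int.cast_natCast _).symm.trans (congrArg (fun z : ℤ => (z : ℝ)) h1)
        rw [h2]
        exact_mod_cast (Rat.num_div_den x).symm
      rw [e, rate_rational_iff _ _ x.den_pos]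
      have hden : (0 : ℝ) < ((x.den : ℕ) : ℝ) := by exact_mod_cast x.den_pos
      refine h _ _ ?_ ?_
      · have : 0 < x.num := Rat.num_pos.mpr hx0'
        omega
      · rw [e, div_lt_div_iff₀ hden (by norm_num)] at hxh
        have h3 : (2 : ℝ) * ((x.num.toNat : ℕ) : ℝ) < ((x.den : ℕ) : ℝ) := by linarith
        exact_mod_cast h3

end Pool.Agent.H6.BC
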